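import Mathlib
import Pool.Agent.H665R2.ColOrd
import Pool.Agent.Helper292.ForceCH

/-!
# CH implies `ω₁² ↛ (ω₁ · ω, 4)²`
-/

set_option autoImplicit false

namespace Pool.Agent.Results.MP_185924_lc.CHFailure

open Cardinal Ordinal

/-- The partition relation `α → (β, k)²` for ordinals and a natural number `k`: every colouring `c`
of the pairs `x < y` of ordinals below `α` with two colours has a subset of order type `β` (the
range of a strictly increasing function on the ordinals below `β`) all of whose pairs have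
property `c`, or `k` elements all of whose pairs fail `c`. -/
def Arrow (α β : Ordinal.{0}) (k : ℕ) : Prop :=
  ∀ c : Ordinal.{0} → Ordinal.{0} → Prop,
    (∃ f : Ordinal.{0} → Ordinal.{0}, StrictMonoOn f (Set.Iio β) ∧ (∀ x, x < β → f x < α) ∧
      (∀ x y, x < y → y < β → c (f x) (f y))) ∨
    (∃ g : Fin k → Ordinal.{0}, StrictMono g ∧ (∀ i, g i < α) ∧
      (∀ i j, i < j → ¬ c (g i) (g j)))

/-- No hypothesis is assumed. (1) There is a notion of forcing all of whose conditions force that
`ω₁` is preserved and that the continuum hypothesis holds. (2) The continuum hypothesis implies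
`ω₁² ↛ (ω₁ · ω, 4)²`, and more generally `α ↛ (ω₁ · ω, 4)²` for every `α < ω₁² · ω`. -/
theorem result :
    (∃ (P : Type) (_ : Preorder P), Nonempty P ∧ ∀ p : P,
      p ∈ Pool.Agent.Helper292.ForceCH.OmegaOnePreserved P ∧
      p ∈ Pool.Agent.Helper292.ForceCH.CHHolds P) ∧
    (Cardinal.continuum.{0} = Cardinal.aleph 1 →
      ¬ Arrow (ω_ 1 * ω_ 1) (ω_ 1 * ω) 4 ∧
      ∀ α : Ordinal.{0}, α < ω_ 1 * ω_ 1 * ω → ¬ Arrow α (ω_ 1 * ω) 4) := by
  refine ⟨?_, ?_⟩
  · obtain ⟨P, hP, hne, h⟩ := Pool.Agent.Helper292.ForceCH.exists_forcing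
    exact ⟨P, hP, hne, fun p => ⟨(h p).1, (h p).2.2⟩⟩
  · intro hCH
    refine ⟨?_, fun α hα => H665R2.ColOrd.not_arrow hCH α hα⟩
    have h := H665R2.ColOrd.not_arrow_nat hCH 1
    rw [Nat.cast_one, mul_one] at h
    exact h

end Pool.Agent.Results.MP_185924_lc.CHFailure
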